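import Pool.Agent.AT5.Stmts2
import Pool.Agent.Helper69_K9.Fmg
import Pool.Agent.Helper60_KF.Hgt
import Pool.Agent.Helper79_WRA.Tower

/-!
# Squad AT5, row DEG: the degrees of the characters of a block
-/

open scoped BigOperators

noncomputable section

namespace Pool.Agent.PP.T5.H39

open Pool.Agent.Helper51_AWC Pool.Agent.Helper79_WRA Pool.Agent.PP Pool.Agent.PP.KF
open Pool.Agent.PP.K9 Pool.Agent.PP.T5

attribute [local instance] Ideal.Quotient.field

/-- a defect class: the central character does not vanish there -/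
theorem lab_ne {ℓ : ℕ} {M : Ideal (integralClosure ℤ ℂ)} [M.IsMaximal] {H : Type} [Group H] [Finite H]
    {b : H → FF M} (hb : IsBlk b) {y : H} {c : H → FF M} (hc : IsCl c)
    (hcy : mulF (mulF c (clsum (FF M) (⊤ : Subgroup H) y)) b = b) {κ : H → ℂ} (hκ : κ ∈ IrrE M b) :
    labF M κ y ≠ 0 := by
  have := Fintype.ofFinite H
  intro h0
  have h2 : res M (mulF (mulF c (clsum (FF M) (⊤ : Subgroup H) y)) b) κ =
      res M c κ * res M (clsum (FF M) (⊤ : Subgroup H) y) κ * res M b κ := by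
    rw [H50.res_mul (H50.isCl_mulF hc (H50.isCl_clsum y)) hb.1.1 hκ.1,
      H50.res_mul hc (H50.isCl_clsum y) hκ.1]
  rw [hcy, hκ.2, H50.res_clsum, h0, mul_zero, zero_mul] at h2
  exact one_ne_zero h2

/-- row DEG -/
theorem deg (fmg : FmgStmt) : DegStmt := by
  intro ℓ _ M _ hℓM H _ _ b hb V hTp κ hκ
  have hℓ : ℓ.Prime := Fact.out
  obtain ⟨-, -, y, hy, -, hnd, c, hc, hcy⟩ := fmg ℓ M hℓM H b hb V hTp
  have hlab := lab_ne (ℓ := ℓ) hb hc hcy hκ
  have hirr := hκ.1
  have hint : IsIntegral ℤ (omega (MonoidHom.id H) κ y) := omega_integral _ hirr y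
  obtain ⟨hinv, hω⟩ := inv_RM (M := M) (RM_of_int hint) (by rwa [rr_of_int hint])
  have hκ1 := irr_one_ne hirr
  have hH : (Nat.card H : ℂ) ≠ 0 := by exact_mod_cast Nat.card_pos.ne'
  have hC : (Nat.card (Subgroup.centralizer {y} : Subgroup H) : ℂ) ≠ 0 := by
    exact_mod_cast Nat.card_pos.ne'
  have hVC : V ≤ (Subgroup.centralizer {y} : Subgroup H) := by
    intro v hv
    rw [Subgroup.mem_centralizer_singleton_iff]
    exact Subgroup.mem_centralizer_iff.1 hy v hv
  have hidx : Nat.card V * V.relIndex (Subgroup.centralizer {y} : Subgroup H) =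
      Nat.card (Subgroup.centralizer {y} : Subgroup H) := by
    have h1 := (V.subgroupOf (Subgroup.centralizer {y} : Subgroup H)).card_mul_index
    rw [Nat.card_congr (Subgroup.subgroupOfEquivOfLe hVC).toEquiv] at h1
    exact h1
  have hn0 : (V.relIndex (Subgroup.centralizer {y} : Subgroup H) : ℂ) ≠ 0 := by
    intro h
    have h' : V.relIndex (Subgroup.centralizer {y} : Subgroup H) = 0 := by exact_mod_cast h
    rw [h'] at hnd
    exact hnd (dvd_zero ℓ)
  have hV : (Nat.card V : ℂ) ≠ 0 := by exact_mod_cast Nat.card_pos.ne'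
  have h3 := H60.hcent hirr y
  rw [← hidx] at h3
  push_cast at h3
  have h4 : (Nat.card V * κ 1 / Nat.card H : ℂ) =
      (V.relIndex (Subgroup.centralizer {y} : Subgroup H) : ℂ)⁻¹ * κ y *
        (omega (MonoidHom.id H) κ y)⁻¹ := by
    have h5 : (Nat.card H : ℂ) * κ y = Nat.card V *
        (V.relIndex (Subgroup.centralizer {y} : Subgroup H) : ℂ) * omega (MonoidHom.id H) κ y *
          κ 1 := by
      rw [← h3]
      field_simp
    rw [div_eq_iff hH]
    have h6 : (V.relIndex (Subgroup.centralizer {y} : Subgroup H) : ℂ)⁻¹ * κ y *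
        (omega (MonoidHom.id H) κ y)⁻¹ * Nat.card H =
        (V.relIndex (Subgroup.centralizer {y} : Subgroup H) : ℂ)⁻¹ *
        (omega (MonoidHom.id H) κ y)⁻¹ * (Nat.card H * κ y) := by ring
    rw [h6, h5]
    field_simp
  rw [h4]
  exact (RM M).mul_mem ((RM M).mul_mem (inv_nat_RM hℓ hℓM hnd)
    (RM_of_int (irr_integral hirr y))) hinv

end Pool.Agent.PP.T5.H39
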