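import Pool.Agent.AT5.Stmts2
import Pool.Agent.Helper69_K9.Fmg
import Pool.Agent.Helper97_K9.NZA

/-!
# Squad AT5, row INC: elements which stabilise a local block
-/

open scoped BigOperators

noncomputable section

namespace Pool.Agent.PP.T5.H39

open Pool.Agent.Helper51_AWC Pool.Agent.Helper79_WRA Pool.Agent.PP Pool.Agent.PP.KF
open Pool.Agent.PP.K9 Pool.Agent.PP.K9.H97 Pool.Agent.PP.H75 Pool.Agent.PP.T5

attribute [local instance] Ideal.Quotient.field

section pidx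

variable {G : Type} [Group G] [Finite G]

/-- the index is a power of `ℓ` if every element has an `ℓ`-power in the normal subgroup -/
theorem pidx {ℓ : ℕ} [Fact ℓ.Prime] {C D : Subgroup G} (hN : D ≤ Subgroup.normalizer (C : Set G))
    (h : ∀ d ∈ D, ∃ k : ℕ, d ^ ℓ ^ k ∈ C) : ∃ n, C.relIndex D = ℓ ^ n := by
  have hn : (C.subgroupOf D).Normal := by
    refine ⟨fun n hn' g => ?_⟩
    rw [Subgroup.mem_subgroupOf] at hn' ⊢
    have h1 := (Subgroup.mem_normalizer_iff.1 (hN g.2) (n : G)).1 hn'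
    exact h1
  have hp : IsPGroup ℓ (D ⧸ C.subgroupOf D) := by
    intro q
    obtain ⟨d, rfl⟩ := QuotientGroup.mk_surjective q
    obtain ⟨k, hk⟩ := h d d.2
    refine ⟨k, ?_⟩
    rw [← QuotientGroup.mk_pow, QuotientGroup.eq_one_iff, Subgroup.mem_subgroupOf]
    exact hk
  obtain ⟨n, hn'⟩ := IsPGroup.iff_card.1 hp
  exact ⟨n, hn'⟩

/-- the subgroup `C ⟨x⟩` -/
def adj (C : Subgroup G) (x : G) (hx : x ∈ Subgroup.normalizer (C : Set G)) : Subgroup G where
  carrier := {g | ∃ c ∈ C, ∃ i : ℤ, g = c * x ^ i}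
  one_mem' := ⟨1, C.one_mem, 0, by simp⟩
  mul_mem' := by
    rintro _ _ ⟨c, hc, i, rfl⟩ ⟨d, hd, j, rfl⟩
    refine ⟨c * (x ^ i * d * (x ^ i)⁻¹), C.mul_mem hc ?_, i + j, ?_⟩
    · exact (Subgroup.mem_normalizer_iff.1
        ((Subgroup.normalizer (C : Set G)).zpow_mem hx i) d).1 hd
    · rw [zpow_add]
      group
  inv_mem' := by
    rintro _ ⟨c, hc, i, rfl⟩
    refine ⟨x ^ (-i) * c⁻¹ * (x ^ (-i))⁻¹, ?_, -i, ?_⟩
    · exact (Subgroup.mem_normalizer_iff.1
        ((Subgroup.normalizer (C : Set G)).zpow_mem hx (-i)) c⁻¹).1 (C.inv_mem hc)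
    · group

theorem pow_adj {C : Subgroup G} {x : G} (hx : x ∈ Subgroup.normalizer (C : Set G)) {c : G}
    (hc : c ∈ C) (i : ℤ) (n : ℕ) : ∃ d ∈ C, (c * x ^ i) ^ n = d * x ^ (i * n) := by
  induction n with
  | zero => exact ⟨1, C.one_mem, by simp⟩
  | succ n ih =>
    obtain ⟨d, hd, h⟩ := ih
    refine ⟨d * (x ^ (i * n) * c * (x ^ (i * n))⁻¹), C.mul_mem hd ?_, ?_⟩
    · exact (Subgroup.mem_normalizer_iff.1
        ((Subgroup.normalizer (C : Set G)).zpow_mem hx _) c).1 hc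
    · rw [pow_succ, h]
      push_cast
      rw [mul_add, mul_one, zpow_add]
      group

end pidx

/-- the stabiliser of a function -/
def stb {F G : Type} [Field F] [Group G] [Finite G] (b : G → F) : Subgroup G where
  carrier := {g | cj g b = b}
  one_mem' := cj_one b
  mul_mem' := by
    intro g h hg hh
    change cj (g * h) b = b
    rw [← cj_cj, show cj h b = b from hh]
    exact hg
  inv_mem' := by
    intro g hg
    change cj g⁻¹ b = b
    have h1 : cj g b = b := hg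
    have h2 := cj_inv_cj g b
    rwa [h1] at h2

/-- a subgroup is good for `e` if it is good for `b` and `e b = b`, `b` invariant -/
theorem gd_of_inv {ℓ : ℕ} {F G : Type} [Field F] [Group G] [Finite G] (hF : GoodF ℓ F) {a b : G → F}
    (h : mulF a b = b) {Q : Subgroup G} (hQ : IsPGroup ℓ Q) (ha : ∀ q ∈ Q, cj q a = a)
    (hb : ∀ q ∈ Q, cj q b = b) {c : G} (hc : c ∈ Subgroup.centralizer (Q : Set G)) (hbc : b c ≠ 0) :
    Gd a Q := by
  by_contra hcon
  apply hbc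
  have h0 : br Q a = 0 := by
    funext x
    by_cases hx : x ∈ Subgroup.centralizer (Q : Set G)
    · rw [H66.br_of_mem hx]
      by_contra hne
      exact hcon ⟨x, hx, hne⟩
    · rw [H66.br_of_not_mem hx]
      rfl
  have hbi : H66.Inv Q b := fun p hp t => (cj_eq_iff p b).1 (hb p hp) t
  have hai : H66.Inv Q a := fun p hp t => (cj_eq_iff p a).1 (ha p hp) t
  have h1 := H66.br_mulF hF hQ hai hbi
  rw [h, h0, mulF_zero_left] at h1
  rw [← H66.br_of_mem (a := b) hc, h1]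
  rfl

/-- row INC -/
theorem inc (ors : OrsStmt) : IncStmt := by
  classical
  intro ℓ _ M _ hℓM G _ _ e V u b hLb x hxu hxb k hxk
  have hℓ : ℓ.Prime := Fact.out
  have hF : GoodF ℓ (FF M) := H50.fld ℓ hℓ M hℓM
  -- `x` normalises `C(u)`
  have hxC : x ∈ Subgroup.normalizer ((Cu u : Subgroup G) : Set G) := by
    have hsub : ∀ y : G, y ∈ Subgroup.normalizer (Subgroup.zpowers u : Set G) → ∀ g ∈ Cu u,
        y * g * y⁻¹ ∈ Cu u := by
      intro y hy g hg
      rw [Subgroup.mem_centralizer_singleton_iff] at hg ⊢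
      have h1 : y⁻¹ * u * (y⁻¹)⁻¹ ∈ Subgroup.zpowers u :=
        (Subgroup.mem_normalizer_iff.1 (Subgroup.inv_mem _ hy) u).1 (Subgroup.mem_zpowers u)
      obtain ⟨j, hj⟩ := Subgroup.mem_zpowers_iff.1 h1
      have h2 : Commute g (y⁻¹ * u * (y⁻¹)⁻¹) := by
        rw [← hj]
        exact (show Commute g u from hg).zpow_right j
      have h3 : g * (y⁻¹ * u * y) = y⁻¹ * u * y * g := by
        have := h2.eq
        rwa [inv_inv] at this
      calc y * g * y⁻¹ * u = y * (g * (y⁻¹ * u * y)) * y⁻¹ := by group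
        _ = y * (y⁻¹ * u * y * g) * y⁻¹ := by rw [h3]
        _ = u * (y * g * y⁻¹) := by group
    rw [Subgroup.mem_normalizer_iff]
    intro g
    refine ⟨hsub x hxu g, fun hg => ?_⟩
    have h4 := hsub x⁻¹ (Subgroup.inv_mem _ hxu) _ hg
    have e1 : x⁻¹ * (x * g * x⁻¹) * x⁻¹⁻¹ = g := by group
    rwa [e1] at h4
  -- the subgroup `S = C⟨x⟩`
  set C : Subgroup G := Cu u with hC
  have hCS : C ≤ adj C x hxC := fun c hc => ⟨c, hc, 0, by simp⟩
  have hSN : adj C x hxC ≤ Subgroup.normalizer (C : Set G) := by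
    rintro _ ⟨c, hc, i, rfl⟩
    exact Subgroup.mul_mem _ (Subgroup.le_normalizer hc) (Subgroup.zpow_mem _ hxC i)
  have hpow : ∀ s ∈ adj C x hxC, ∃ k : ℕ, s ^ ℓ ^ k ∈ C := by
    rintro _ ⟨c, hc, i, rfl⟩
    obtain ⟨d, hd, h⟩ := pow_adj hxC hc i (ℓ ^ k)
    refine ⟨k, ?_⟩
    rw [h]
    refine C.mul_mem hd ?_
    have e1 : x ^ (i * ((ℓ ^ k : ℕ) : ℤ)) = (x ^ ℓ ^ k) ^ i := by
      rw [mul_comm, zpow_mul, zpow_natCast]
    rw [e1]
    exact C.zpow_mem hxk i
  have hinvS : ∀ s ∈ adj C x hxC, cj s b = b := by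
    rintro _ ⟨c, hc, i, rfl⟩
    have h1 : x ^ i ∈ stb b := Subgroup.zpow_mem (stb b) hxb i
    have h2 : c ∈ stb b := hLb.bx.ix.inv hc
    exact (stb b).mul_mem h2 h1
  obtain ⟨c, hc, hbc, ⟨v, hv, hvc⟩, hcS⟩ := ors ℓ (FF M) hF G C (adj C x hxC) hCS hSN
    (pidx hSN hpow) b hLb.bx hinvS
  -- a conjugate of `c` commutes with `V`
  have hVC : V ≤ C := by
    intro w hw
    rw [hC, Subgroup.mem_centralizer_singleton_iff]
    exact (hLb.cen w hw)
  have hcl : (fun t : C => clsum (FF M) C c t) = clsum (FF M) (⊤ : Subgroup C) ⟨c, hc⟩ := by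
    funext t
    unfold clsum
    refine if_congr ?_ rfl rfl
    constructor
    · rintro ⟨q, hq, h⟩
      exact ⟨⟨q, hq⟩, Subgroup.mem_top _, Subtype.ext h⟩
    · rintro ⟨q, -, h⟩
      exact ⟨q, q.2, congrArg Subtype.val h⟩
  rw [hcl] at hvc
  have hVp : IsPGroup ℓ (V.subgroupOf C) := by
    have := hLb.tp.pg
    exact this.comap_subtype
  have hVg : Gd (fun t : C => b t) (V.subgroupOf C) := by
    obtain ⟨g, hg, hbg⟩ := hLb.gd
    have hgC : g ∈ C := by
      by_contra h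
      exact hbg (hLb.bx.supp g h)
    refine ⟨⟨g, hgC⟩, ?_, hbg⟩
    rw [Subgroup.mem_centralizer_iff] at hg ⊢
    intro w hw
    exact Subtype.ext (hg w hw)
  obtain ⟨r, hr⟩ := H69.below hF hLb.bx.blk.1.1 hv hvc hVp hVg
  set c₁ : G := (r : G)⁻¹ * c * r with hc₁
  have hc₁C : c₁ ∈ C := C.mul_mem (C.mul_mem (C.inv_mem r.2) hc) r.2
  have hVc₁ : ∀ w ∈ V, w * c₁ = c₁ * w := by
    intro w hw
    have h1 : r * (⟨w, hVC hw⟩ : C) * r⁻¹ ∈ conjS r (V.subgroupOf C) := by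
      rw [mem_conjS]
      have e1 : r⁻¹ * (r * (⟨w, hVC hw⟩ : C) * r⁻¹) * r = ⟨w, hVC hw⟩ := by group
      rw [e1]
      exact hw
    have h2 := Subgroup.mem_centralizer_singleton_iff.1 (hr h1)
    have h3 : (r : G) * w * (r : G)⁻¹ * c = c * ((r : G) * w * (r : G)⁻¹) := congrArg Subtype.val h2
    rw [hc₁]
    calc w * ((r : G)⁻¹ * c * r) = (r : G)⁻¹ * ((r : G) * w * (r : G)⁻¹ * c) * r := by group
      _ = (r : G)⁻¹ * (c * ((r : G) * w * (r : G)⁻¹)) * r := by rw [h3]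
      _ = (r : G)⁻¹ * c * r * w := by group
  have hbc₁ : b c₁ ≠ 0 := by
    have h1 := (cj_eq_iff _ _).1 (hLb.bx.ix.inv (C.inv_mem r.2)) c
    rw [inv_inv] at h1
    rw [hc₁, h1]
    exact hbc
  have hc₁S : ∀ s ∈ adj C x hxC, ∃ y ∈ C, y * s * c₁ = c₁ * (y * s) := by
    intro s hs
    obtain ⟨y, hy, h⟩ := hcS s hs
    refine ⟨(r : G)⁻¹ * y * (s * r * s⁻¹), C.mul_mem (C.mul_mem (C.inv_mem r.2) hy)
      ((Subgroup.mem_normalizer_iff.1 (hSN hs) _).1 r.2), ?_⟩
    rw [hc₁]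
    calc (r : G)⁻¹ * y * (s * r * s⁻¹) * s * ((r : G)⁻¹ * c * r) = (r : G)⁻¹ * (y * s * c) * r := by
          group
      _ = (r : G)⁻¹ * (c * (y * s)) * r := by rw [h]
      _ = (r : G)⁻¹ * c * r * ((r : G)⁻¹ * y * (s * r * s⁻¹) * s) := by group
  -- the centraliser of `c₁` in `S`
  set D : Subgroup G := Subgroup.centralizer ({c₁} : Set G) ⊓ adj C x hxC with hD
  have hVD : V ≤ D := by
    intro w hw
    refine ⟨?_, hCS (hVC hw)⟩
    exact Subgroup.mem_centralizer_singleton_iff.2 (hVc₁ w hw)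
  have hVp' : IsPGroup ℓ (V.subgroupOf D) := (hLb.tp.pg).comap_subtype
  obtain ⟨P, hP⟩ := hVp'.exists_le_sylow
  have hPp : IsPGroup ℓ ((P : Subgroup D).map D.subtype) := P.isPGroup'.map _
  set a : G → FF M := fun y => if y ∈ C then e y else 0 with ha
  have haS : ∀ y, y ∉ C → a y = 0 := fun y hy => if_neg hy
  have hmulG : mulF a b = b := by
    apply H75.eq_of_res (N := C) (mulF_supp C haS hLb.bx.supp) hLb.bx.supp
    rw [mulF_res C b haS]
    have h1 : (fun t : C => a t) = fun t : C => e t := by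
      funext t
      exact if_pos t.2
    rw [h1]
    exact hLb.und
  have hgd : Gd e ((P : Subgroup D).map D.subtype) := by
    obtain ⟨g, hg, hag⟩ := gd_of_inv (a := a) hF hmulG hPp (c := c₁) (by
      rintro _ ⟨q, -, rfl⟩
      rw [cj_eq_iff]
      intro t
      have h1 : (D.subtype q) * t * (D.subtype q)⁻¹ ∈ C ↔ t ∈ C :=
        (Subgroup.mem_normalizer_iff.1 (hSN q.2.2) t).symm
      change (if (D.subtype q) * t * (D.subtype q)⁻¹ ∈ C then
        e ((D.subtype q) * t * (D.subtype q)⁻¹) else 0) = if t ∈ C then e t else 0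
      exact if_congr h1 (hLb.blk.1.1 t _) rfl) (by
      rintro _ ⟨q, -, rfl⟩
      exact hinvS _ q.2.2) (by
      rw [Subgroup.mem_centralizer_iff]
      rintro _ ⟨q, -, rfl⟩
      exact Subgroup.mem_centralizer_singleton_iff.1 q.2.1) hbc₁
    refine ⟨g, hg, fun h => hag ?_⟩
    change (if g ∈ C then e g else 0) = 0
    rw [h, ite_self]
  have hcard := hLb.tp.mx _ hPp hgd
  have hVP : V ≤ (P : Subgroup D).map D.subtype := by
    intro w hw
    exact ⟨⟨w, hVD hw⟩, hP hw, rfl⟩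
  have hVeq : V = (P : Subgroup D).map D.subtype := Subgroup.eq_of_le_of_card_ge hVP hcard
  have hPC : (P : Subgroup D) ≤ C.subgroupOf D := by
    intro q hq
    rw [Subgroup.mem_subgroupOf]
    apply hVC
    rw [hVeq]
    exact ⟨q, hq, rfl⟩
  obtain ⟨n, hn⟩ := pidx (ℓ := ℓ) (C := C) (D := D) (fun d hd => hSN hd.2) (fun d hd => hpow d hd.2)
  have hdvd : C.relIndex D ∣ (P : Subgroup D).index := Subgroup.index_dvd_of_le hPC
  have hnd : ¬ ℓ ∣ (P : Subgroup D).index := P.not_dvd_index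
  have hn0 : n = 0 := by
    by_contra h
    apply hnd
    refine Dvd.dvd.trans ?_ hdvd
    rw [hn]
    exact dvd_pow_self ℓ h
  have hDC : D ≤ C := by
    rw [hn0, pow_zero] at hn
    exact Subgroup.relIndex_eq_one.1 hn
  obtain ⟨y, hy, h⟩ := hc₁S x ⟨1, C.one_mem, 1, by simp⟩
  have hyx : y * x ∈ D := by
    refine ⟨Subgroup.mem_centralizer_singleton_iff.2 h, ⟨y, hy, 1, by simp⟩⟩
  have h5 := C.mul_mem (C.inv_mem hy) (hDC hyx)
  rwa [inv_mul_cancel_left] at h5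

end Pool.Agent.PP.T5.H39
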